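import Pool.Agent.W910.WZ.Final
import Pool.Agent.Y97.WZ.Gen

/-!
# PFA: a family of continuum many analytic functions takes continuum many values at all but
# countably many points

Under the Proper Forcing Axiom, let `F` be a set of analytic functions on a connected set `U` of
real or complex numbers.  If `F` has more than `aleph_1` members (equivalently, `2 ^ aleph_0` many)
then `{f(z) : f ∈ F}` has as many members as `F` for all but countably many points `z` of `U`.  If
`F` has at most `aleph_1` members, this holds for all but at most `aleph_1 < 2 ^ aleph_0` points.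
In particular there is no Wetzel family, and Martin's axiom and `2 ^ aleph_0 = aleph_2` hold.
-/

set_option autoImplicit false

open Set Cardinal

namespace Pool.Agent.Results.MP_eaf9cc_lc.CountablyManyExceptions

open Pool.Agent.Helper647.FU (CCC MeetsAll PFA)
open Pool.Agent.W910.WZ (IsWetzel)

/-- Martin's axiom: every ccc partial order has filters meeting any fewer than continuum many dense
sets. -/
def MartinAxiom : Prop :=
  ∀ (P : Type) [PartialOrder P] [Nonempty P], CCC P →
    ∀ 𝒟 : Set (Set P), #𝒟 < #ℝ → (∀ D ∈ 𝒟, ∀ p : P, ∃ q ∈ D, q ≤ p) → ∃ G : Set P, MeetsAll 𝒟 G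

/-- The points of `U` at which the family `F` takes fewer values than it has members. -/
def Exceptional {𝕜 : Type} (U : Set 𝕜) (F : Set (𝕜 → 𝕜)) : Set 𝕜 :=
  {z | z ∈ U ∧ #((fun f : 𝕜 → 𝕜 => f z) '' F) < #F}

/-- For every family `F` of functions that are analytic on the preconnected set `U ⊆ 𝕜` (on a
neighbourhood of each of its points) and pairwise different on `U`: if `F` has more than `aleph_1`
members, it has only countably many exceptional points in `U`; if it has at most `aleph_1` members,
it has at most `aleph_1` exceptional points in `U`. -/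
def FewExceptions (𝕜 : Type) [NontriviallyNormedField 𝕜] : Prop :=
  ∀ (U : Set 𝕜) (F : Set (𝕜 → 𝕜)), IsPreconnected U → (∀ f ∈ F, AnalyticOnNhd 𝕜 f U) →
    (∀ f ∈ F, ∀ g ∈ F, EqOn f g U → f = g) →
    (ℵ₁ < #F → (Exceptional U F).Countable) ∧ (#F ≤ ℵ₁ → #(Exceptional U F) ≤ ℵ₁)

theorem few (𝕜 : Type) [NontriviallyNormedField 𝕜] [ProperSpace 𝕜] [CharZero 𝕜] (h : PFA)
    (hc : #𝕜 = #ℝ) : FewExceptions 𝕜 := by
  intro U F hU han hinj
  have hfam : Pool.Agent.Y97.WZ.AFam U F := ⟨hU, han, hinj⟩
  have hR := Pool.Agent.W910.WZ.Final.c_eq_of_PFA h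
  have hoca := Pool.Agent.W910.WZ.Final.oca_of_PFA h
  have hc2 : #(ℕ → 𝕜) ≤ ℵ_ 2 := by
    rw [← power_def, hc, mk_real, mk_nat, continuum_power_aleph0, ← mk_real, hR]
  exact ⟨fun h1 => Pool.Agent.Y97.WZ.large hoca (hc.trans hR).le hc2 hfam h1,
    fun h1 => Pool.Agent.Y97.WZ.small hfam h1⟩

/-- The Proper Forcing Axiom implies Martin's axiom and `2 ^ aleph_0 = aleph_2`, that every family
of analytic functions on a connected set of complex (or real) numbers has few exceptional points
(countably many if the family has more than `aleph_1` members, at most `aleph_1` otherwise), that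
every set of `2 ^ aleph_0` many entire functions takes `2 ^ aleph_0` many values at all but
countably many points, and that there is no Wetzel family. -/
theorem result : PFA → MartinAxiom ∧ #ℝ = ℵ_ 2 ∧ FewExceptions ℂ ∧ FewExceptions ℝ ∧
    (∀ F : Set (ℂ → ℂ), (∀ f ∈ F, Differentiable ℂ f) → #F = #ℝ →
      {z : ℂ | #((fun f : ℂ → ℂ => f z) '' F) ≠ #ℝ}.Countable) ∧
    ¬ ∃ F : Set (ℂ → ℂ), IsWetzel F := by
  intro h
  have hc := Pool.Agent.W910.WZ.Final.c_eq_of_PFA h
  have hC : #ℂ = #ℝ := by rw [mk_complex, mk_real]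
  have hsucc : (ℵ_ 2 : Cardinal) = Order.succ ℵ₁ := by
    rw [succ_aleph]
    norm_num
  have h12 : (ℵ₁ : Cardinal) < ℵ_ 2 := by
    rw [hsucc]; exact Order.lt_succ _
  have hfewC := few ℂ h hC
  have hent : ∀ F : Set (ℂ → ℂ), (∀ f ∈ F, Differentiable ℂ f) →
      (ℵ₁ < #F → (Exceptional Set.univ F).Countable) ∧ (#F ≤ ℵ₁ → #(Exceptional Set.univ F) ≤ ℵ₁) := by
    intro F hF
    exact hfewC Set.univ F isPreconnected_univ (fun f hf z _ => (hF f hf).analyticAt z)
      (fun f _ g _ hfg => funext fun z => hfg (mem_univ z))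
  refine ⟨?_, hc, hfewC, few ℝ h rfl, ?_, ?_⟩
  · intro P _ _ hP 𝒟 h𝒟 hd
    refine Pool.Agent.Helper647.FU.J8.MA1_of_PFA h P hP 𝒟 ?_ hd
    rw [hc, hsucc] at h𝒟
    exact Order.lt_succ_iff.1 h𝒟
  · intro F hF hFc
    refine ((hent F hF).1 (by rw [hFc, hc]; exact h12)).mono ?_
    intro z hz
    refine ⟨mem_univ z, lt_of_le_of_ne mk_image_le ?_⟩
    rw [hFc]
    exact hz
  · rintro ⟨F, hF, hW⟩
    have huniv : Exceptional Set.univ F = Set.univ := by
      ext z
      exact ⟨fun _ => mem_univ z, fun _ => ⟨mem_univ z, hW z⟩⟩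
    rcases le_or_gt (#F) ℵ₁ with h1 | h1
    · have h2 := (hent F hF).2 h1
      rw [huniv, mk_univ, hC, hc] at h2
      exact absurd h2 (not_le.2 h12)
    · have h2 := (hent F hF).1 h1
      rw [huniv, ← le_aleph0_iff_set_countable, mk_univ, hC, hc] at h2
      exact absurd (h2.trans (aleph0_lt_aleph_one.le)) (not_le.2 h12)

end Pool.Agent.Results.MP_eaf9cc_lc.CountablyManyExceptions
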